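import Pool.Agent.Lib.MP_c377d9_an.Borel

/-!
Q1 of MP_c377d9_an: `V` is a Euclidean space of dimension `N = n + 1`, `F` is a Euclidean space,
`e` is a unit vector (`e = e_1` in coordinates), `η` is any integrable function.
-/

open MeasureTheory Filter Topology Pool.Agent.Lib.MP_c377d9_an

theorem Pool.Agent.Results.MP_c377d9_an.JumpLowerBound.result {V F : Type}
    [NormedAddCommGroup V] [InnerProductSpace ℝ V] [FiniteDimensional ℝ V]
    [MeasurableSpace V] [BorelSpace V]
    [NormedAddCommGroup F] [InnerProductSpace ℝ F] [FiniteDimensional ℝ F]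
    (n : ℕ) (hn : Module.finrank ℝ V = n + 1) (e : V) (he : ‖e‖ = 1) (q : ℝ) (hq : 1 < q)
    (u : V → F) (hu : MemBesov q u) (η : V → ℝ) (hη : Integrable η volume)
    (up um : V → F) (hj : ∀ x ∈ jumpSet u, IsJump u x (up x) (um x)) :
    MeasurableSet (jumpSet u) ∧
    Measurable ((jumpSet u).indicator fun x => enorm (up x - um x)) ∧
    enorm (∫ z, η z) ^ q *
        (∫⁻ z in Metric.sphere (0 : V) 1, enorm (inner ℝ z e)
          ∂Measure.euclideanHausdorffMeasure n) *
        ∫⁻ x in jumpSet u, enorm (up x - um x) ^ q ∂Measure.euclideanHausdorffMeasure n ≤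
      liminf (fun ε : ℝ => gagliardo q (mollify η u ε) / ENNReal.ofReal |Real.log ε|)
        (𝓝[>] 0) := by
  have : CompleteSpace F := FiniteDimensional.complete ℝ F
  exact ⟨(jump_borel hu.1.1 hj).1, (jump_borel hu.1.1 hj).2, main hn he hη hq.le hu hj⟩
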